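import Mathlib
import Pool.Agent.R594.Sel.QSel

set_option autoImplicit false

/-!
# MP_b7496a_gt, Q1: consistently there is a `ℚ`-selective space which is not `C`-selective

* Some forcing notion forces the continuum hypothesis (and preserves `ω₁`), see
  `Pool.Agent.R594.Star.CH` (the second conjunct of the theorem says that the translated sentence
  is the continuum hypothesis).
* In ZFC + CH there is a countable regular `T₁` space which is strongly `ℚ`-selective (every lower
  semicontinuous map from `ℚ` to the nonempty, not necessarily closed, subsets has a continuous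
  selection) and not `C`-selective.

So the negated form, every `ℚ`-selective space is `C`-selective, is not provable in ZFC. The forcing
language is the one of `Pool.Agent.Helper126.Sus.Forc`: a sentence is the set of the conditions
which force it. See `Pool.Agent.R594.Sel.Defs` for the definitions `LSC`, `StronglySelective`,
`Selective` and `CSelective`.
-/

namespace Pool.Agent.Results.MP_b7496a_gt.ConsistentYes

open Cardinal Pool.Agent.Helper126.Sus.Forc Pool.Agent.R594.Star Pool.Agent.R594.Sel

/-- (1) Some forcing notion forces CH. (2) The translated sentence is CH. (3) Under CH there is a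
countable regular `T₁` space `X` which is strongly `ℚ`-selective, hence `ℚ`-selective, and not
`C`-selective. -/
theorem result :
    (∃ (P : Type) (_ : Preorder P), Nonempty P ∧ ∀ p : P,
      p ∈ OmegaOnePreserved P ∧ p ∈ ContinuumHypothesis P) ∧
    ((∃ E : K1 → ℕ → ℕ, ∀ f : ℕ → ℕ, ∃ α, E α = f) ↔ (𝔠 : Cardinal.{0}) = ℵ₁) ∧
    ((𝔠 : Cardinal.{0}) = ℵ₁ →
      ∃ (X : Type) (_ : TopologicalSpace X), T1Space X ∧ RegularSpace X ∧ Countable X ∧
        StronglySelective ℚ X ∧ Selective ℚ X ∧ ¬ CSelective X) := by
  refine ⟨exists_forcing_ch, ch_iff, fun hCH => ?_⟩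
  obtain ⟨X, hX, h1, h2, h3, h4, h5⟩ := exists_space hCH
  exact ⟨X, hX, h1, h2, h3, h4, fun φ hne _ hlsc => h4 φ hne hlsc, h5⟩

end Pool.Agent.Results.MP_b7496a_gt.ConsistentYes
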