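import Mathlib
import Pool.Agent.R594.Sel.Char

set_option autoImplicit false

/-!
# MP_b7496a_gt, Q1: a `ℚ`-selective space which is not `C`-selective yields a countable Frechet
`α₁`-space which is not first countable

Such countable spaces exist in some models of ZFC and do not exist in others (A. Dow and
J. Steprans, Countable Frechet `α₁`-spaces may be first countable, 1992); so, together with the
companion hand-in `ConsistentYes`, the question is independent of ZFC. See
`Pool.Agent.R594.Sel.Defs` for `LSC`, `Selective`, `CSelective` and `Pool.Agent.R594.Sel.Char` for
`AlphaOne`.
-/

universe u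

namespace Pool.Agent.Results.MP_b7496a_gt.Reduction

open Pool.Agent.R594.Sel

/-- If there is a `T₁` space which is `ℚ`-selective and not `C`-selective, then there is a countable
regular `T₁` Frechet `α₁`-space which is not first countable. -/
theorem result (X : Type u) [TopologicalSpace X] [T1Space X] (hQ : Selective ℚ X)
    (hC : ¬ CSelective X) :
    ∃ (Z : Type) (_ : TopologicalSpace Z), T1Space Z ∧ RegularSpace Z ∧ Countable Z ∧
      FrechetUrysohnSpace Z ∧ AlphaOne Z ∧ ¬ FirstCountableTopology Z :=
  reduction hQ hC

end Pool.Agent.Results.MP_b7496a_gt.Reduction
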